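import Pool.Agent.H27.CAL.Stmts2

/-!
# Project CAL, module CRIT
-/

open Filter
open scoped Topology

namespace CAL

theorem crit_lt {s t : ℕ → ℕ} (hst : ∀ k, s k < t k) (hts : ∀ k, t k ≤ s (k + 1)) :
    ∀ k k', k < k' → t k ≤ s k' := by
  intro k k' h
  induction k' with
  | zero => omega
  | succ n ih =>
    rcases Nat.lt_succ_iff_lt_or_eq.1 h with h | h
    · have h1 := ih h
      have h2 := hst n
      have h3 := hts n
      omega
    · subst h; exact hts k

theorem cal_crit {𝕜 : Type*} [RCLike 𝕜] {A : Type*} [PartialOrder A] {Y : Type*}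
    [NormedAddCommGroup Y] [NormedSpace 𝕜 Y] {τ : TreeLev A} (D : Dat 𝕜 Y τ)
    (Z : Type*) [NormedAddCommGroup Z] [NormedSpace 𝕜 Z]
    (h1 : SPLITStmt D) : CRITStmt D Z := by
  intro T M hM hT x s t hB
  obtain ⟨hran, hst, hts, C, hC⟩ := hB
  have hC0 : 0 ≤ C := (norm_nonneg _).trans (hC 0)
  have hlt := crit_lt hst hts
  -- the splittings
  choose u v huv hu hv hun hvn hus hvs using
    fun N k => h1 (s k) (t k) N (x k) (hst k).le (hran k)
  -- the small weight parts form rapidly increasing sequences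
  have hU : ∀ N, D.RIS (fun k => u N k) := by
    intro N
    have hmN := mm_pos N
    refine ⟨2 * C + 6 * C * mm N, s, t, fun k => Nat.casesOn k 0 (fun m => t m + 1), ?_⟩
    refine ⟨fun k => hu N k, hst, hts, fun k => ?_, fun k => ?_, ?_, fun k γ _ => ?_⟩
    · have h2 := hun N k
      have h3 := hC k
      have h4 : 0 ≤ 6 * C * mm N := by positivity
      linarith
    · exact Nat.lt_succ_self _
    · apply strictMono_nat_of_lt_succ
      intro k
      cases k with
      | zero => exact Nat.succ_pos _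
      | succ m =>
        have h2 := hts m
        have h3 := hst (m + 1)
        show t m + 1 < t (m + 1) + 1
        omega
    · refine (hus N k γ).trans ?_
      have h5 := mm_inv_pos (D.wt γ)
      apply mul_le_mul_of_nonneg_right _ h5.le
      have h6 : 6 * ‖x k‖ * mm N ≤ 6 * C * mm N := by
        apply mul_le_mul_of_nonneg_right _ hmN.le
        linarith [hC k]
      linarith
  by_contra hcon
  -- a bad set
  have hbad : ∃ δ : ℝ, 0 < δ ∧ ∀ K, ∃ k ≥ K, δ ≤ ‖T k (x k)‖ := by
    rw [Metric.tendsto_atTop] at hcon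
    push Not at hcon
    obtain ⟨δ, hδ, h⟩ := hcon
    refine ⟨δ, hδ, fun K => ?_⟩
    obtain ⟨k, hk, hk2⟩ := h K
    refine ⟨k, hk, ?_⟩
    rwa [dist_zero_right] at hk2
  obtain ⟨δ, hδ, hbad⟩ := hbad
  have hstep : ∀ N K, ∃ k ≥ K, δ ≤ ‖T k (x k)‖ ∧ ‖T k (u N k)‖ ≤ δ / 2 := by
    intro N K
    have h2 := hT _ (hU N) id strictMono_id
    rw [Metric.tendsto_atTop] at h2
    obtain ⟨K', hK'⟩ := h2 (δ / 2) (by positivity)
    obtain ⟨k, hk, hk2⟩ := hbad (max K K')
    refine ⟨k, (le_max_left _ _).trans hk, hk2, ?_⟩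
    have h3 := hK' k ((le_max_right _ _).trans hk)
    rw [dist_zero_right] at h3
    exact h3.le
  choose g hg1 hg2 hg3 using hstep
  -- states (N, k)
  let st : ℕ → ℕ × ℕ := fun i => Nat.rec (0, g 0 0)
    (fun _ p => (max (p.1 + 1) (t p.2 + 1), g (max (p.1 + 1) (t p.2 + 1)) (p.2 + 1))) i
  have hs1 : ∀ i, (st (i + 1)).1 = max ((st i).1 + 1) (t (st i).2 + 1) := fun i => rfl
  have hs2 : ∀ i, (st (i + 1)).2 = g (st (i + 1)).1 ((st i).2 + 1) := fun i => rfl
  have hk1 : ∀ i, δ ≤ ‖T (st i).2 (x (st i).2)‖ := by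
    intro i
    cases i with
    | zero => exact hg2 0 0
    | succ i => rw [hs2]; exact hg2 _ _
  have hk2 : ∀ i, ‖T (st i).2 (u (st i).1 (st i).2)‖ ≤ δ / 2 := by
    intro i
    cases i with
    | zero => exact hg3 0 0
    | succ i => rw [hs2]; exact hg3 _ _
  have hkm : ∀ i, (st i).2 < (st (i + 1)).2 := by
    intro i
    rw [hs2]
    exact hg1 _ _
  have hNm : ∀ i, (st i).1 < (st (i + 1)).1 := by
    intro i
    rw [hs1]
    exact lt_of_lt_of_le (Nat.lt_succ_self _) (le_max_left _ _)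
  have hkM : StrictMono (fun i => (st i).2) := strictMono_nat_of_lt_succ hkm
  have hNM : StrictMono (fun i => (st i).1) := strictMono_nat_of_lt_succ hNm
  have hV : D.RIS (fun i => v (st i).1 (st i).2) := by
    refine ⟨6 * C, fun i => s (st i).2, fun i => t (st i).2, fun i => (st i).1, ?_⟩
    refine ⟨fun i => hv _ _, fun i => hst _, fun i => hlt _ _ (hkm i), fun i => ?_, fun i => ?_,
      hNM, fun i γ hγ => ?_⟩
    · have h2 := hvn (st i).1 (st i).2
      have h3 := hC (st i).2
      linarith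
    · show t (st i).2 < (st (i + 1)).1
      rw [hs1]
      exact lt_of_lt_of_le (Nat.lt_succ_self _) (le_max_right _ _)
    · refine (hvs _ _ γ hγ.le).trans ?_
      have h5 := mm_inv_pos (D.wt γ)
      apply mul_le_mul_of_nonneg_right _ h5.le
      linarith [hC (st i).2]
  have h4 := hT _ hV _ hkM
  rw [Metric.tendsto_atTop] at h4
  obtain ⟨K, hK⟩ := h4 (δ / 2) (by positivity)
  have h5 := hK K le_rfl
  rw [dist_zero_right] at h5
  have h6 : T (st K).2 (x (st K).2) = T (st K).2 (u (st K).1 (st K).2) +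
      T (st K).2 (v (st K).1 (st K).2) := by
    rw [← map_add, ← huv]
  have h7 := hk1 K
  rw [h6] at h7
  have h8 := norm_add_le (T (st K).2 (u (st K).1 (st K).2)) (T (st K).2 (v (st K).1 (st K).2))
  have h9 := hk2 K
  linarith

end CAL
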