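import Pool.Agent.H27.CAL.Stmts2

/-!
# Project CAL, module DENC
-/

open Filter
open scoped Topology

namespace CAL

theorem cal_denc {𝕜 : Type*} [RCLike 𝕜] {A : Type*} [PartialOrder A] [TopologicalSpace A]
    [CompactSpace A] (τ : TreeLev A) (hc : ∀ a : A, IsClopen {b | a ≤ b})
    (h1 : PCStmt 𝕜 τ) (h2 : PCSUMStmt 𝕜 τ hc) (h3 : TPCStmt 𝕜 τ) : DENCStmt 𝕜 τ hc := by
  classical
  intro T hT e he
  obtain ⟨P, hP1, hP2, hP3⟩ := h1 hc
  have h4 := h3 hc P hP1 hP2 hP3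
  obtain ⟨p, hp⟩ := (h4 T hT (e / 2) (by positivity)).1
  have hT2 : IsCompactOperator (T.comp (P p)) := hT.comp_clm (P p)
  obtain ⟨q, hq⟩ := (h4 (T.comp (P p)) hT2 (e / 2) (by positivity)).2
  set Np : Finset A := (τ.fin p).toFinset with hNp
  set Nq : Finset A := (τ.fin q).toFinset with hNq
  have hNp' : ∀ a, a ∈ Np ↔ τ.lev a ≤ p := fun a => by simp [hNp]
  have hNq' : ∀ a, a ∈ Nq ↔ τ.lev a ≤ q := fun a => by simp [hNq]
  have hsum : ∀ r (N : Finset A), (∀ a, a ∈ N ↔ τ.lev a ≤ r) → ∀ f : C(A, 𝕜),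
      P r f = ∑ a ∈ N, dC 𝕜 τ a f • chi 𝕜 hc a := by
    intro r N hN f
    ext x
    rw [hP1]
    exact h2 r N hN f x
  let f0 : A × A → 𝕜 := fun ab => if ab ∈ Nq ×ˢ Np then dC 𝕜 τ ab.1 (T (chi 𝕜 hc ab.2)) else 0
  let m : (A × A) →₀ 𝕜 := Finsupp.onFinset (Nq ×ˢ Np) f0 (by
    intro ab hab
    by_contra hcon
    exact hab (if_neg hcon))
  refine ⟨m, ?_⟩
  have hm : RC τ hc m = (P q).comp (T.comp (P p)) := by
    ext1 f
    have e1 : (RC τ hc m) f = ∑ ab ∈ Nq ×ˢ Np,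
        (dC 𝕜 τ ab.1 (T (chi 𝕜 hc ab.2)) * dC 𝕜 τ ab.2 f) • chi 𝕜 hc ab.1 := by
      have e0 : RC τ hc m = ∑ ab ∈ Nq ×ˢ Np,
          f0 ab • ((dC 𝕜 τ ab.2).smulRight (chi 𝕜 hc ab.1)) :=
        Finsupp.onFinset_sum _ (fun a => by
          apply ContinuousLinearMap.ext
          intro g
          change (0 : 𝕜) • (((dC 𝕜 τ a.2).smulRight (chi 𝕜 hc a.1)) g) = 0
          rw [zero_smul])
      rw [e0, sum_apply]
      apply Finset.sum_congr rfl
      intro ab hab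
      have : f0 ab = dC 𝕜 τ ab.1 (T (chi 𝕜 hc ab.2)) := if_pos hab
      rw [this]
      simp only [smul_apply, ContinuousLinearMap.smulRight_apply, smul_smul]
    rw [e1]
    simp only [ContinuousLinearMap.comp_apply]
    rw [hsum p Np hNp' f, map_sum, map_sum, Finset.sum_product_right]
    apply Finset.sum_congr rfl
    intro a _
    rw [map_smul, map_smul, hsum q Nq hNq', Finset.smul_sum]
    apply Finset.sum_congr rfl
    intro b _
    rw [smul_smul, mul_comm]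
  rw [hm]
  have h5 : T - (P q).comp (T.comp (P p)) = (T - T.comp (P p)) +
      (T.comp (P p) - (P q).comp (T.comp (P p))) := by abel
  rw [h5]
  refine (norm_add_le _ _).trans ?_
  linarith

end CAL
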