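import Pool.Agent.H27.CAL.Stmts2

/-!
# Project CAL, module HWN
-/

open Filter

namespace CAL

theorem cal_hwn {𝕜 : Type*} [RCLike 𝕜] {A : Type*} [PartialOrder A] {Y : Type*}
    [NormedAddCommGroup Y] [NormedSpace 𝕜 Y] {τ : TreeLev A} (D : Dat 𝕜 Y τ)
    (h1 : REXStmt D) (h2 : RNULLStmt D) (h3 : SUBStmt D) : HWNStmt D := by
  intro Ch F w hR
  obtain ⟨C, x, s, t, j, hx, hn⟩ := h1 F w hR
  have hpos : ∀ k, 0 < ‖x k‖ := fun k => lt_of_lt_of_le one_pos (hn k)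
  have hc : ∀ k, ‖(((‖x k‖⁻¹ : ℝ)) : 𝕜)‖ = ‖x k‖⁻¹ := by
    intro k
    rw [RCLike.norm_ofReal, abs_of_pos (inv_pos.2 (hpos k))]
  have hr : D.RIS (fun k => (((‖x k‖⁻¹ : ℝ)) : 𝕜) • x k) :=
    ⟨C, s, t, j, h3.2.1 C x s t j (fun k => (((‖x k‖⁻¹ : ℝ)) : 𝕜)) hx (fun k => by
      rw [hc]; exact inv_le_one_of_one_le₀ (hn k))⟩
  refine ⟨fun k => (((‖x k‖⁻¹ : ℝ)) : 𝕜) • x k, fun k => ?_, fun f => h2 F w hR f _ hr⟩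
  rw [norm_smul, hc, inv_mul_cancel₀ (hpos k).ne']

end CAL
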